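import Pool.Agent.Helper82.ST.W
import Pool.Agent.Helper47.ST.I
import Pool.Agent.Helper71.ST.S
import Pool.Agent.Helper56.ST.V0
import Pool.Agent.Helper95.ST.D

/-!
# Project ST, block F: the far side
-/

set_option autoImplicit false

namespace Pool.Agent.Helper11.ST

open MeasureTheory Pool.Agent.Helper99.MS Pool.Agent.Helper71.ST
open Pool.Agent.Helper82.ST (om_abs)
open Pool.Agent.Helper47.ST (EE_int EE_half EE_tail')
open Pool.Agent.Helper56.ST (v0_bd)
open Pool.Agent.Helper95.ST (tc_split tc_gB)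

theorem EE_nn (m s : ℝ) : 0 ≤ EE m s := (Real.exp_pos _).le

theorem EE_c (m : ℝ) : Continuous (EE m) := by
  unfold EE XX
  fun_prop

theorem half_int {m : ℝ} (hm : 4 ≤ m) : Integrable (fun s => Real.exp (-(s / 2)) * EE m s) := by
  have hc := EE_c m
  refine Integrable.mono' (EE_int hm) (Continuous.aestronglyMeasurable (by fun_prop)) ?_
  filter_upwards with s
  have h0 := EE_nn m s
  rw [norm_mul, Real.norm_eq_abs, Real.norm_eq_abs, abs_of_nonneg h0, abs_of_pos (Real.exp_pos _)]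
  apply mul_le_mul_of_nonneg_right _ h0
  apply Real.exp_le_exp.2
  have := neg_abs_le s
  have := abs_nonneg s
  linarith

/-- the inner integral -/
theorem inner_bd {m : ℝ} (hm : 64 ≤ m) {t V ρ C₁ B₂ b w : ℝ} (hρ : 1 ≤ ρ) (hC : 0 ≤ C₁) (hb : 0 ≤ b) (hw : |w| ≤ b)
    (h1 : ∀ x, |x - V| ≤ ρ + b → ‖Dt mr t x‖ ≤ C₁) (hB : 0 ≤ B₂) (h2 : ∀ x, ‖Dt mr t x‖ ≤ B₂ * ell x) :
    ‖∫ s, ((Real.exp (-(s / 2)) * EE m s : ℝ) : ℂ) * Dt mr t (V + w - s)‖ ≤
      2 * C₁ * I0 m + B₂ * ell V * (b + 1) * (60 * Real.exp (-((m - 4) * ρ / 4))) := by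
  have hm4 : 4 ≤ m := by linarith
  have hS : MeasurableSet {s : ℝ | ρ < |s|} := measurableSet_lt measurable_const (by fun_prop)
  have hK : 0 ≤ B₂ * ell V * (b + 1) := mul_nonneg (mul_nonneg hB (ell_nonneg V)) (by linarith)
  have i1 : Integrable (fun s => C₁ * (Real.exp (-(s / 2)) * EE m s)) := (half_int hm4).const_mul C₁
  have i2 : Integrable (({s : ℝ | ρ < |s|}).indicator fun s => (B₂ * ell V * (b + 1)) * (Real.exp (2 * |s|) * EE m s)) :=
    ((EE_int hm4).const_mul _).indicator hS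
  refine (norm_integral_le_of_norm_le (i1.add i2) ?_).trans ?_
  · filter_upwards with s
    have h0 := EE_nn m s
    rw [norm_mul, Complex.norm_real, Real.norm_of_nonneg (mul_nonneg (Real.exp_pos _).le h0), Pi.add_apply]
    by_cases hs : ρ < |s|
    · rw [Set.indicator_of_mem (show s ∈ {s : ℝ | ρ < |s|} from hs)]
      have e1 : ‖Dt mr t (V + w - s)‖ ≤ B₂ * (ell V * (b + 1) * Real.exp |s|) := by
        refine (h2 _).trans (mul_le_mul_of_nonneg_left ?_ hB)
        have a1 : ell (V + w - s) ≤ ell (V + w) * ell (-s) := by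
          rw [sub_eq_add_neg]
          exact ell_add _ _
        have a2 : ell (V + w) ≤ ell V * ell w := ell_add _ _
        have a3 : ell w ≤ b + 1 := by
          have := ell_le_linear w
          linarith
        have a4 : ell (-s) ≤ Real.exp |s| := by
          have := ell_le_linear (-s)
          rw [abs_neg] at this
          have := Real.add_one_le_exp |s|
          linarith
        calc ell (V + w - s) ≤ ell (V + w) * ell (-s) := a1
          _ ≤ (ell V * (b + 1)) * Real.exp |s| := by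
            apply mul_le_mul (a2.trans (mul_le_mul_of_nonneg_left a3 (ell_nonneg V))) a4 (ell_nonneg _)
            exact mul_nonneg (ell_nonneg V) (by linarith)
      have e2 : Real.exp (-(s / 2)) * Real.exp |s| ≤ Real.exp (2 * |s|) := by
        rw [← Real.exp_add]
        apply Real.exp_le_exp.2
        have := neg_abs_le s
        have := abs_nonneg s
        linarith
      have e3 : 0 ≤ C₁ * (Real.exp (-(s / 2)) * EE m s) := by positivity
      calc Real.exp (-(s / 2)) * EE m s * ‖Dt mr t (V + w - s)‖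
          ≤ Real.exp (-(s / 2)) * EE m s * (B₂ * (ell V * (b + 1) * Real.exp |s|)) :=
            mul_le_mul_of_nonneg_left e1 (by positivity)
        _ = (B₂ * ell V * (b + 1)) * ((Real.exp (-(s / 2)) * Real.exp |s|) * EE m s) := by ring
        _ ≤ (B₂ * ell V * (b + 1)) * (Real.exp (2 * |s|) * EE m s) := by
            apply mul_le_mul_of_nonneg_left (mul_le_mul_of_nonneg_right e2 h0) hK
        _ ≤ _ := by linarith
    · rw [Set.indicator_of_notMem (show s ∉ {s : ℝ | ρ < |s|} from hs), add_zero]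
      have e1 : ‖Dt mr t (V + w - s)‖ ≤ C₁ := by
        apply h1
        have : |V + w - s - V| ≤ |w| + |s| := by
          rw [show V + w - s - V = w - s by ring]
          exact abs_sub _ _
        have h3 : |s| ≤ ρ := not_lt.1 hs
        linarith
      calc Real.exp (-(s / 2)) * EE m s * ‖Dt mr t (V + w - s)‖
          ≤ Real.exp (-(s / 2)) * EE m s * C₁ := mul_le_mul_of_nonneg_left e1 (by positivity)
        _ = _ := by ring
  · rw [integral_add' i1 i2, integral_const_mul, integral_indicator hS, integral_const_mul]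
    have e1 := EE_half hm
    have e2 := EE_tail' hm4 hρ
    have e3 := mul_le_mul_of_nonneg_left e1 hC
    have e4 := mul_le_mul_of_nonneg_left e2 hK
    linarith

theorem far {B : ℝ} (h : GB (ff mr) B) {k : ℕ} (hk : 16 ≤ k) {n : ℕ} (hn : 1 ≤ n) {t V ρ C₁ B₂ : ℝ} (hV : 0 ≤ V) (hρ : 1 ≤ ρ)
    (hC : 0 ≤ C₁) (h1 : ∀ x, |x - V| ≤ ρ + (n + 1) → ‖Dt mr t x‖ ≤ C₁) (hB : 0 ≤ B₂) (h2 : ∀ x, ‖Dt mr t x‖ ≤ B₂ * ell x) :
    ‖Tc (fk t (Real.log (n + 1 / 2)) (1 / (24 * n))) (gg (4 * k)) V‖ ≤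
      5 * √n * (2 * C₁ * I0 ((4 * k : ℕ) : ℝ) + B₂ * ell V * (n + 2) * (60 * Real.exp (-((((4 * k : ℕ) : ℝ) - 4) * ρ / 4)))) +
        912 * B * CE * √n / √((4 * k : ℕ) : ℝ) := by
  have hn1 : (1 : ℝ) ≤ n := by exact_mod_cast hn
  obtain ⟨v1, v2, v3⟩ := v0_bd hn
  set v0 : ℝ := Real.log (n + 1 / 2) with hv0
  set δ : ℝ := 1 / (24 * n) with hδd
  have hδ : 0 < δ := by positivity
  have hδ1 : δ ≤ 1 / 24 := by
    rw [hδd]
    apply one_div_le_one_div_of_le (by norm_num)
    linarith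
  have hδ2 : δ ≤ 1 / 16 := by linarith
  set m : ℝ := ((4 * k : ℕ) : ℝ) with hm
  have hm64 : 64 ≤ m := by
    rw [hm]
    have : (16 : ℝ) ≤ k := by exact_mod_cast hk
    push_cast
    linarith
  have hsn : 1 ≤ √(n : ℝ) := Real.one_le_sqrt.2 hn1
  set b : ℝ := 2 * C₁ * I0 m + B₂ * ell V * (n + 2) * (60 * Real.exp (-((m - 4) * ρ / 4))) with hb
  have hin : ∀ w : ℝ, |w| ≤ (n : ℝ) + 1 →
      ‖∫ s, ((Real.exp (-(s / 2)) * EE m s : ℝ) : ℂ) * Dt mr t (V + w - s)‖ ≤ b := by
    intro w hw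
    refine (inner_bd hm64 hρ hC (by linarith) hw h1 hB h2).trans_eq ?_
    rw [hb]
    ring
  have hb0 : 0 ≤ b := (norm_nonneg _).trans (hin 0 (by rw [abs_zero]; linarith))
  rw [tc_split h (by omega) hδ hδ2 v1]
  have g2 := tc_gB h (k := k) (by omega) hδ hδ2 v1 t (V := V) (by linarith)
  have g2' : 2 * Real.exp ((v0 + δ) / 2) * (228 * B * CE / √m) ≤ 912 * B * CE * √n / √m := by
    have hBn := h.nonneg
    have hCE : 0 ≤ CE := CE_nonneg
    have : 0 ≤ 228 * B * CE / √m := by positivity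
    calc _ ≤ 2 * (2 * √n) * (228 * B * CE / √m) := by gcongr
      _ = _ := by ring
  have g1 : ‖Tc (fk t v0 δ) (gA k) V‖ ≤ 5 * √n * b := by
    rw [tc_gA (by omega) hδ hδ2 v1]
    have hc := (inner_cont (k := k) (by omega) t V).norm
    have hw : ∀ w : ℝ, |w| ≤ (n : ℝ) + 1 → ∀ c : ℝ, w ≤ c → ‖Complex.exp ((1 / 2 + t * Complex.I) * w) *
        ∫ s, ((Real.exp (-(s / 2)) * EE m s : ℝ) : ℂ) * Dt mr t (V + w - s)‖ ≤ Real.exp (c / 2) * b := by
      intro w hw c hc
      rw [norm_mul, Complex.norm_exp]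
      apply mul_le_mul _ (hin w hw) (norm_nonneg _) (Real.exp_pos _).le
      apply Real.exp_le_exp.2
      simp
      linarith
    obtain ⟨o1, o2⟩ := om_abs hδ (v0 := v0) hc (fun w => norm_nonneg _) (c1 := 2 * √n * b) (c2 := √n * b)
      (fun w hwv => by
        have h3 := abs_le.1 hwv
        refine (hw w (abs_le.2 ⟨by linarith, by linarith⟩) (v0 + δ) (by linarith)).trans ?_
        exact mul_le_mul_of_nonneg_right v2 hb0)
      (fun w hwv => by
        have h3 := abs_le.1 hwv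
        refine (hw w (abs_le.2 ⟨by linarith, by linarith⟩) 0 (by linarith)).trans ?_
        apply mul_le_mul_of_nonneg_right _ hb0
        rw [zero_div, Real.exp_zero]
        exact hsn)
    refine (norm_integral_le_of_norm_le o1 ?_).trans (o2.trans ?_)
    · filter_upwards with w
      rw [norm_mul, Complex.norm_real, Real.norm_eq_abs]
    · have : 0 ≤ √(n : ℝ) * b := by positivity
      linarith
  calc ‖Tc (fk t v0 δ) (gA k) V - Tc (fk t v0 δ) (gB k) V‖ ≤ ‖Tc (fk t v0 δ) (gA k) V‖ + ‖Tc (fk t v0 δ) (gB k) V‖ := norm_sub_le _ _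
    _ ≤ _ := by linarith

end Pool.Agent.Helper11.ST
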